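import Mathlib
import Pool.Agent.MP_5207c4_ag.H41.Basic

/-!
For every degree `d ≥ 3` some tuple of root counts defines a disconnected set.
-/

open Polynomial

namespace Pool.Agent.Results.MP_5207c4_ag.Disconnected

/-- The monic polynomial `x^d + ∑ a_j x^j` attached to a point `a` of `ℝ^d`. -/
noncomputable def Q (d : ℕ) (a : Fin d → ℝ) : ℝ[X] :=
  X ^ d + ∑ j : Fin d, C (a j) * X ^ (j : ℕ)

/-- The set `R_{4,d}`: all coefficients are non-zero and none of the derivatives of order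
`0, …, d - 1` has a multiple real root. -/
def R4 (d : ℕ) : Set (Fin d → ℝ) :=
  {a | (∀ j, a j ≠ 0) ∧
    ∀ l : ℕ, l < d → ∀ x : ℝ, rootMultiplicity x (derivative^[l] (Q d a)) ≤ 1}

/-- The set `R_{4,d}(τ)`: the points of `R_{4,d}` for which, for each `l < d`, the `l`-th
derivative has exactly `(τ l).1` positive and `(τ l).2` negative real roots. -/
def R4tau (d : ℕ) (τ : Fin d → ℕ × ℕ) : Set (Fin d → ℝ) :=
  {a | a ∈ R4 d ∧ ∀ l : Fin d,
    {x : ℝ | 0 < x ∧ (derivative^[(l : ℕ)] (Q d a)).IsRoot x}.ncard = (τ l).1 ∧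
    {x : ℝ | x < 0 ∧ (derivative^[(l : ℕ)] (Q d a)).IsRoot x}.ncard = (τ l).2}

open Pool.Agent.MP_5207c4_ag.H41

lemma Q_coeff_lt {d : ℕ} (a : Fin d → ℝ) {i : ℕ} (hi : i < d) : (Q d a).coeff i = a ⟨i, hi⟩ := by
  simp only [Q, coeff_add, coeff_X_pow, finsetSum_coeff, coeff_C_mul]
  rw [if_neg hi.ne, zero_add, Finset.sum_eq_single ⟨i, hi⟩]
  · simp
  · intro b _ hb
    rw [if_neg, mul_zero]
    intro h; apply hb; ext; exact h.symm
  · simp

lemma Q_coeff_ge {d : ℕ} (a : Fin d → ℝ) {i : ℕ} (hi : d ≤ i) :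
    (Q d a).coeff i = if i = d then 1 else 0 := by
  simp only [Q, coeff_add, coeff_X_pow, finsetSum_coeff, coeff_C_mul]
  rw [Finset.sum_eq_zero, add_zero]
  intro b _
  rw [if_neg, mul_zero]
  have := b.2
  omega

lemma Q_of_poly {d : ℕ} {P : ℝ[X]} (hd : P.natDegree = d) (hl : P.leadingCoeff ≠ 0) :
    Q d (fun j => (P.leadingCoeff)⁻¹ * P.coeff j) = C (P.leadingCoeff)⁻¹ * P := by
  ext i
  rw [coeff_C_mul]
  by_cases hi : i < d
  · rw [Q_coeff_lt _ hi]
  · rw [Q_coeff_ge _ (not_lt.mp hi)]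
    split_ifs with h
    · rw [h, ← hd, coeff_natDegree, inv_mul_cancel₀ hl]
    · rw [coeff_eq_zero_of_natDegree_lt (by omega), mul_zero]

lemma iter_coeff_top {d l : ℕ} (a : Fin d → ℝ) (hl : l ≤ d) :
    0 < (derivative^[l] (Q d a)).coeff (d - l) := by
  rw [coeff_iterate_derivative, Nat.sub_add_cancel hl, Q_coeff_ge a le_rfl, if_pos rfl]
  have : 0 < d.descFactorial l := Nat.descFactorial_pos.mpr hl
  simpa using this

lemma iter_ne_zero {d l : ℕ} (a : Fin d → ℝ) (hl : l ≤ d) : derivative^[l] (Q d a) ≠ 0 := by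
  intro h
  have := iter_coeff_top a hl
  rw [h] at this
  simp at this

lemma simple_iff {p : ℝ[X]} (hp : p ≠ 0) : (∀ x, rootMultiplicity x p ≤ 1) ↔ Simple p := by
  unfold Simple
  refine forall_congr' fun x => ?_
  rw [← not_lt, one_lt_rootMultiplicity_iff_isRoot hp]
  simp [IsRoot.def]

lemma mem_of_good {n : ℕ} {q P : ℝ[X]} (h : Good n q P) :
    (fun j : Fin (n + 3) => (P.leadingCoeff)⁻¹ * P.coeff j) ∈
      R4tau (n + 3) (fun l => cnt (derivative^[(l : ℕ)] P)) := by
  have hl : P.leadingCoeff ≠ 0 := h.lead.ne'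
  have hl' : (P.leadingCoeff)⁻¹ ≠ 0 := inv_ne_zero hl
  refine ⟨⟨fun j => mul_ne_zero hl' (h.coeff_ne j j.2), fun l hld => ?_⟩, fun l => ?_⟩
  · rw [simple_iff (iter_ne_zero _ hld.le), Q_of_poly h.deg hl, iterate_derivative_C_mul]
    intro x hx
    have := h.simple l hld x (by simpa [hl] using hx)
    simpa [hl] using this
  · rw [Q_of_poly h.deg hl, iterate_derivative_C_mul]
    simp [cnt, hl]

/-- the separating function on `ℝ^(n+3)` -/
noncomputable def sepFun (n : ℕ) (a : Fin (n + 3) → ℝ) : ℝ :=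
  sep ((derivative^[n] (Q (n + 3) a)).coeff 0) ((derivative^[n] (Q (n + 3) a)).coeff 1)
    ((derivative^[n] (Q (n + 3) a)).coeff 2) ((derivative^[n] (Q (n + 3) a)).coeff 3)

lemma continuous_coeff (d i : ℕ) : Continuous fun a : Fin d → ℝ => (Q d a).coeff i := by
  by_cases hi : i < d
  · simp only [Q_coeff_lt _ hi]; exact continuous_apply _
  · simp only [Q_coeff_ge _ (not_lt.mp hi)]; exact continuous_const

lemma continuous_sepFun (n : ℕ) : Continuous (sepFun n) := by
  have h : ∀ i, Continuous fun a : Fin (n + 3) → ℝ =>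
      (derivative^[n] (Q (n + 3) a)).coeff i := by
    intro i
    simp only [coeff_iterate_derivative, nsmul_eq_mul]
    exact continuous_const.mul (continuous_coeff _ _)
  have h0 := h 0
  have h1 := h 1
  have h2 := h 2
  have h3 := h 3
  unfold sepFun sep
  fun_prop

lemma cubic_eq {p : ℝ[X]} (hp : ∀ i, 3 < i → p.coeff i = 0) :
    p = C (p.coeff 3) * X ^ 3 + C (p.coeff 2) * X ^ 2 + C (p.coeff 1) * X + C (p.coeff 0) := by
  ext i
  rcases i with _ | _ | _ | _ | i
  all_goals simp [coeff_X, coeff_C, coeff_X_pow]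
  exact hp _ (by omega)

lemma sepFun_ne_zero {n : ℕ} {a : Fin (n + 3) → ℝ} (ha : a ∈ R4 (n + 3)) : sepFun n a ≠ 0 := by
  have s0 := (simple_iff (iter_ne_zero a (by omega))).mp (ha.2 n (by omega))
  have s1 := (simple_iff (iter_ne_zero a (by omega))).mp (ha.2 (n + 1) (by omega))
  rw [Function.iterate_succ_apply'] at s1
  have h3 := iter_coeff_top (l := n) a (by omega)
  rw [show n + 3 - n = 3 by omega] at h3
  unfold sepFun
  set p := derivative^[n] (Q (n + 3) a) with hp
  have hz : ∀ i, 3 < i → p.coeff i = 0 := by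
    intro i hi
    rw [hp, coeff_iterate_derivative, Q_coeff_ge a (by omega), if_neg (by omega), smul_zero]
  have e := cubic_eq hz
  generalize p.coeff 0 = c0 at *
  generalize p.coeff 1 = c1 at *
  generalize p.coeff 2 = c2 at *
  generalize p.coeff 3 = c3 at *
  clear_value p
  subst e
  apply sep_ne_zero h3
  · intro x hx hx'
    apply s0 x
    · simpa using hx
    · simp
      linarith
  · intro x hx hx'
    apply s1 x
    · simp
      linarith
    · simp
      linarith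

lemma sepFun_good {n : ℕ} {c : ℝ} {P : ℝ[X]} (h : Good n (cub c) P) :
    sepFun n (fun j : Fin (n + 3) => (P.leadingCoeff)⁻¹ * P.coeff j) =
      sep ((P.leadingCoeff)⁻¹ * (-c)) ((P.leadingCoeff)⁻¹ * 45) ((P.leadingCoeff)⁻¹ * (-12))
        ((P.leadingCoeff)⁻¹) := by
  unfold sepFun
  rw [Q_of_poly h.deg h.lead.ne', iterate_derivative_C_mul, h.top]
  simp [cub, coeff_X, coeff_C, coeff_X_pow]

lemma sep_pos {t : ℝ} (ht : 0 < t) : 0 < sep (t * (-34)) (t * 45) (t * (-12)) t := by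
  unfold sep
  have h2 : 0 < t ^ 2 := by positivity
  have h3 : 0 < t ^ 3 := by positivity
  have h6 : 0 < t ^ 6 := by positivity
  refine lt_min (lt_min ?_ ?_) ?_ <;> nlinarith

lemma sep_neg {t : ℝ} (ht : 0 < t) : sep (t * (-70)) (t * 45) (t * (-12)) t < 0 := by
  unfold sep
  have h3 : 0 < t ^ 3 := by positivity
  refine lt_of_le_of_lt (min_le_right _ _) ?_
  nlinarith

theorem result :
    ∀ d : ℕ, 3 ≤ d → ∃ τ : Fin d → ℕ × ℕ,
      ¬ IsPreconnected (R4tau d τ) ∧
      ∃ a ∈ R4tau d τ, ∃ b ∈ R4tau d τ,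
        connectedComponentIn (R4 d) a ≠ connectedComponentIn (R4 d) b := by
  intro d hd
  obtain ⟨n, rfl⟩ : ∃ n, d = n + 3 := ⟨d - 3, by omega⟩
  obtain ⟨P, P', hP, hP', hc⟩ :=
    exists_pair (cub_good (Or.inl rfl)) (cub_good (Or.inr rfl)) cub_cnt n
  have ha := mem_of_good hP
  have hb := mem_of_good hP'
  simp only [← hc] at hb
  have sa := sepFun_good hP
  have sb := sepFun_good hP'
  have pa := sep_pos (inv_pos.mpr hP.lead)
  have pb := sep_neg (inv_pos.mpr hP'.lead)
  rw [← sa] at pa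
  rw [← sb] at pb
  have key : ∀ S : Set (Fin (n + 3) → ℝ), S ⊆ R4 (n + 3) → IsPreconnected S →
      (fun j : Fin (n + 3) => (P.leadingCoeff)⁻¹ * P.coeff j) ∈ S →
      (fun j : Fin (n + 3) => (P'.leadingCoeff)⁻¹ * P'.coeff j) ∈ S → False := by
    intro S hS hpre h1 h2
    obtain ⟨z, hz, hz0⟩ := hpre.intermediate_value h2 h1 (continuous_sepFun n).continuousOn
      (show (0 : ℝ) ∈ Set.Icc _ _ from ⟨pb.le, pa.le⟩)
    exact sepFun_ne_zero (hS hz) hz0
  refine ⟨_, fun hpre => key _ (fun a ha => ha.1) hpre ha hb, _, ha, _, hb, fun heq => ?_⟩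
  refine key _ (connectedComponentIn_subset _ _) isPreconnected_connectedComponentIn
    (mem_connectedComponentIn ha.1) ?_
  rw [heq]
  exact mem_connectedComponentIn hb.1

end Pool.Agent.Results.MP_5207c4_ag.Disconnected
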